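import Mathlib
import Pool.Agent.Run7.h816.MG.Sal
import Pool.Agent.Run7.h22.Ins3

/-! Finiteness of families of Salem numbers: helper lemmas. -/

set_option autoImplicit false

open Polynomial NumberField

namespace Pool.Agent.Run7.h816.SF

/-- a conjugate on the unit circle makes the minimal polynomial reciprocal -/
lemma inv_root {β : ℝ} (h1 : 1 < β) (h2 : IsIntegral ℤ β)
    (h3 : ∃ z : ℂ, aeval z (minpoly ℤ β) = 0 ∧ ‖z‖ = 1) : aeval β⁻¹ (minpoly ℤ β) = 0 := by
  obtain ⟨z, hz, hz1⟩ := h3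
  set f : ℤ[X] := minpoly ℤ β with hf
  have hfm : f.Monic := minpoly.monic h2
  have hfi : Irreducible f := minpoly.irreducible h2
  have hzi : IsIntegral ℤ z := ⟨f, hfm, by rwa [aeval_def] at hz⟩
  have hz0 : z ≠ 0 := by
    rintro rfl
    rw [norm_zero] at hz1
    exact zero_ne_one hz1
  -- `f` is the minimal polynomial of `z`
  have hdvd : minpoly ℤ z ∣ f := minpoly.isIntegrallyClosed_dvd hzi hz
  have hass : Associated (minpoly ℤ z) f :=
    (hfi.dvd_iff.1 hdvd).resolve_left (minpoly.irreducible hzi).not_isUnit |>.symm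
  have heq : minpoly ℤ z = f := eq_of_monic_of_associated (minpoly.monic hzi) hfm hass
  -- the conjugate `z⁻¹` is a zero of `f`
  have hconj : (starRingEnd ℂ) z = z⁻¹ := by
    rw [Complex.inv_def, Complex.normSq_eq_norm_sq, hz1]
    simp
  have hzbar : aeval z⁻¹ f = 0 := by
    rw [← hconj]
    have h5 : aeval ((starRingEnd ℂ) z) f = (starRingEnd ℂ) (aeval z f) := by
      rw [aeval_def, aeval_def, hom_eval₂]
      congr 1
      exact RingHom.ext_int _ _
    rw [h5, hz, map_zero]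
  have hrev : aeval z f.reverse = 0 := by
    have hne : z⁻¹ ≠ 0 := inv_ne_zero hz0
    letI : Invertible z⁻¹ := invertibleOfNonzero hne
    have h6 := eval₂_reverse_eq_zero_iff (algebraMap ℤ ℂ) z⁻¹ f
    rw [invOf_eq_inv, inv_inv] at h6
    rw [aeval_def]
    exact h6.2 hzbar
  have hdvd2 : f ∣ f.reverse := by
    rw [← heq]
    have h7 := minpoly.isIntegrallyClosed_dvd hzi (p := f.reverse) hrev
    rw [heq] at h7 ⊢
    exact h7
  obtain ⟨g, hg⟩ := hdvd2
  have h8 : aeval β f.reverse = 0 := by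
    rw [hg, map_mul, hf, minpoly.aeval, zero_mul]
  have hne : β⁻¹ ≠ 0 := inv_ne_zero (by linarith)
  letI : Invertible β⁻¹ := invertibleOfNonzero hne
  have h9 := eval₂_reverse_eq_zero_iff (algebraMap ℤ ℝ) β⁻¹ f
  rw [invOf_eq_inv, inv_inv] at h9
  rw [aeval_def] at h8 ⊢
  exact h9.1 h8

/-- finitely many numbers of bounded degree -/
lemma fin_of_deg (B N : ℝ) : {β : ℝ | 1 < β ∧ IsIntegral ℤ β ∧
    (∀ z : ℂ, aeval z (minpoly ℤ β) = 0 → z ≠ (β : ℂ) → ‖z‖ ≤ 1) ∧ β ≤ B ∧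
    ((minpoly ℤ β).natDegree : ℝ) ≤ N}.Finite := by
  refine ((Polynomial.finite_mahlerMeasure_le ⌊N⌋₊ B.toNNReal).biUnion
    (t := fun q => q.rootSet ℝ) (fun q _ => Polynomial.rootSet_finite q ℝ)).subset ?_
  rintro β ⟨h1, h2, h4, hB, hN⟩
  have hMM : ((minpoly ℤ β).map (Int.castRingHom ℂ)).mahlerMeasure = β :=
    Pool.Agent.H196R3.Parry.mahler_eq h1 h2 h4
  rw [Set.mem_iUnion₂]
  refine ⟨minpoly ℤ β, ⟨Nat.le_floor hN, ?_⟩, ?_⟩
  · rw [hMM, Real.coe_toNNReal _ (by linarith)]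
    exact hB
  · rw [mem_rootSet]
    exact ⟨minpoly.ne_zero h2, minpoly.aeval ℤ β⟩

/-- a bound for the exponential factor -/
lemma exp_factor (ε : ℝ) (hε : 0 < ε) (n : ℕ) : ∃ B : ℝ, 0 < B ∧ ∀ x m : ℝ, 1 ≤ x → x ≤ m →
    Real.exp (18 * Real.sqrt (Real.log (2 * x) * Real.log (2 * n))) ≤ B * m ^ (ε / 2) := by
  have hL : 0 ≤ |Real.log (2 * n)| := abs_nonneg _
  refine ⟨Real.exp (ε / 2 * Real.log 2 + 162 * |Real.log (2 * n)| / ε), Real.exp_pos _, ?_⟩
  intro x m hx hxm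
  have hm : 0 < m := by linarith
  have hlx : 0 ≤ Real.log (2 * x) := Real.log_nonneg (by linarith)
  have h1 : Real.sqrt (Real.log (2 * x) * Real.log (2 * n)) ≤
      Real.sqrt (Real.log (2 * m) * |Real.log (2 * n)|) := by
    apply Real.sqrt_le_sqrt
    have h2 : Real.log (2 * x) ≤ Real.log (2 * m) := Real.log_le_log (by linarith) (by linarith)
    calc Real.log (2 * x) * Real.log (2 * n) ≤ Real.log (2 * x) * |Real.log (2 * n)| :=
          mul_le_mul_of_nonneg_left (le_abs_self _) hlx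
      _ ≤ _ := mul_le_mul_of_nonneg_right h2 hL
  have hlm : 0 ≤ Real.log (2 * m) := Real.log_nonneg (by linarith)
  have h3 : 18 * Real.sqrt (Real.log (2 * m) * |Real.log (2 * n)|) ≤
      ε / 2 * Real.log (2 * m) + 162 * |Real.log (2 * n)| / ε := by
    set y := Real.sqrt (Real.log (2 * m)) with hy
    set z := Real.sqrt |Real.log (2 * n)| with hz
    have hy2 : y ^ 2 = Real.log (2 * m) := Real.sq_sqrt hlm
    have hz2 : z ^ 2 = |Real.log (2 * n)| := Real.sq_sqrt hL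
    rw [Real.sqrt_mul hlm, ← hy, ← hz, ← hy2, ← hz2]
    have h4 : ε / 2 * y ^ 2 + 162 * z ^ 2 / ε - 18 * (y * z) = (ε * y - 18 * z) ^ 2 / (2 * ε) := by
      field_simp
      ring
    have h5 : 0 ≤ (ε * y - 18 * z) ^ 2 / (2 * ε) := by positivity
    linarith
  have h6 : m ^ (ε / 2) = Real.exp (ε / 2 * Real.log m) := by
    rw [Real.rpow_def_of_pos hm, mul_comm]
  rw [h6, ← Real.exp_add]
  apply Real.exp_le_exp.mpr
  have h7 : Real.log (2 * m) = Real.log 2 + Real.log m :=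
    Real.log_mul (by norm_num) hm.ne'
  have h8 : ε / 2 * Real.log (2 * m) = ε / 2 * Real.log 2 + ε / 2 * Real.log m := by
    rw [h7, mul_add]
  linarith

/-- the exponential factor of the theorem on inertia automorphisms -/
lemma exp_factor3 (ε : ℝ) (hε : 0 < ε) : ∃ B : ℝ, 0 < B ∧ ∀ x m : ℝ, 1 ≤ x → x ≤ m →
    Real.exp (3 * Real.sqrt (Real.log (2 * x))) ≤ B * m ^ (ε / 2) := by
  obtain ⟨B, hB, h⟩ := exp_factor ε hε 1
  refine ⟨B, hB, fun x m hx hxm => (Real.exp_le_exp.mpr ?_).trans (h x m hx hxm)⟩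
  have hlx : 0 ≤ Real.log (2 * x) := Real.log_nonneg (by linarith)
  rw [Nat.cast_one, mul_one, Real.sqrt_mul hlx]
  have h2 : (1 / 6 : ℝ) ≤ Real.sqrt (Real.log 2) := by
    apply Real.le_sqrt_of_sq_le
    have := Real.log_two_gt_d9
    norm_num at this ⊢
    linarith
  have h3 := Real.sqrt_nonneg (Real.log (2 * x))
  nlinarith

/-- a bound for the degree -/
lemma deg_bound {n X ε : ℝ} (hn : 1 ≤ n) (hX : 0 ≤ X) (hε : 0 < ε)
    (h : n ≤ X * n ^ (1 - ε / 2)) : n ≤ X ^ (2 / ε) := by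
  have hn0 : 0 < n := by linarith
  have h5 : n = n ^ (ε / 2) * n ^ (1 - ε / 2) := by
    rw [← Real.rpow_add hn0]
    rw [show ε / 2 + (1 - ε / 2) = 1 by ring, Real.rpow_one]
  have h6 : n ^ (ε / 2) ≤ X :=
    le_of_mul_le_mul_right (h5.symm.trans_le h) (Real.rpow_pos_of_pos hn0 _)
  calc n = (n ^ (ε / 2)) ^ (2 / ε) := by
        rw [← Real.rpow_mul hn0.le, show ε / 2 * (2 / ε) = 1 by field_simp, Real.rpow_one]
    _ ≤ X ^ (2 / ε) := Real.rpow_le_rpow (by positivity) h6 (by positivity)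

/-- the general step: a lower bound for `log β` with a weight at most a power of the degree -/
lemma deg_of_weight {C ε A G B β n x w y : ℝ} (hC : 0 < C) (hε : 0 < ε) (hA : 0 < A)
    (hG : 0 ≤ G) (hn : 1 ≤ n) (hβ : 1 < β) (hβB : β ≤ B) (hx : x ≤ n ^ (1 - ε)) (hx0 : 0 ≤ x)
    (hy : y ≤ A * n ^ (ε / 2)) (hy0 : 0 ≤ y) (hw : w = x * G * y)
    (h : n ≤ C * (w * Real.log β)) : n ≤ (C * (G * A * |Real.log B|)) ^ (2 / ε) := by
  have hn0 : 0 < n := by linarith
  have hlog : 0 < Real.log β := Real.log_pos hβ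
  have hlogB : Real.log β ≤ |Real.log B| :=
    (Real.log_le_log (by linarith) hβB).trans (le_abs_self _)
  refine deg_bound hn (by positivity) hε (h.trans ?_)
  have hp : 0 ≤ n ^ (1 - ε) := (Real.rpow_pos_of_pos hn0 _).le
  have h3 : w * Real.log β ≤ n ^ (1 - ε / 2) * (G * A * |Real.log B|) := by
    rw [hw]
    calc x * G * y * Real.log β ≤ n ^ (1 - ε) * G * (A * n ^ (ε / 2)) * |Real.log B| := by gcongr
      _ = (n ^ (1 - ε) * n ^ (ε / 2)) * (G * A * |Real.log B|) := by ring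
      _ = _ := by
          rw [← Real.rpow_add hn0]
          congr 2
          ring
  calc C * (w * Real.log β) ≤ C * (n ^ (1 - ε / 2) * (G * A * |Real.log B|)) :=
        mul_le_mul_of_nonneg_left h3 hC.le
    _ = _ := by ring

end Pool.Agent.Run7.h816.SF
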